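import Pool.Agent.W92.DPH.Basic
import Pool.Agent.H984R4.HN.Ret
import Pool.Agent.H984R4.HN.Couple
import Pool.Agent.H12R2.Sep.BlkSum

set_option autoImplicit false

/-!
The path of the box from the middle of the top side to the origin does not go back.
-/

namespace Pool.Agent.W101.DPH

open H974 H12S Finset H342P H984P MeasureTheory H984H

/-- membership in the configuration -/
theorem mem_cfg (ρ : ℤ) (F : Finset Edg) (e : Edg) :
    e ∈ (bx ρ).cfg F ↔ ((e ∈ F ∧ ¬ (e.2.2 = true ∧ e.2.1 = 0 ∧ 0 ≤ e.1)) ∨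
    ((e.2.2 = true ∧ e.2.1 = ρ ∧ -ρ ≤ e.1 ∧ e.1 < 0) ∨
    (e.2.2 = false ∧ e.1 = -ρ ∧ 0 ≤ e.2.1 ∧ e.2.1 < ρ) ∨
    (e.2.2 = true ∧ e.2.1 = 0 ∧ -ρ ≤ e.1 ∧ e.1 < 0))) := Iff.rfl

/-- one step back -/
theorem back {ρ : ℤ} (F : Finset Edg) (m : ℕ) :
    (bx ρ).walk F m = step ((bx ρ).cfg F) ((bx ρ).walk F (m + 1)) := by
  rw [walk_succ, step_nxt]

theorem not_stop {ρ : ℤ} {F : Finset Edg} {m : ℕ} (hm : m < (bx ρ).len F) :
    (bx ρ).walk F m ≠ Dm.stop := fun h => Nat.notMem_of_lt_sInf hm h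

/-- The corners below the negative half-axis are not visited. -/
theorem not_sw {ρ : ℤ} (hρ : 1 ≤ ρ) {F : Finset Edg} (hF : F ⊆ (bx ρ).edges) (j : ℕ) :
    (j : ℤ) ≤ ρ → ∀ m, m < (bx ρ).len F → (bx ρ).walk F m ≠ ((-(j:ℤ), 0), .sw) := by
  have hs : (bx ρ).start = ((0, ρ), .ne) := rfl
  -- one step back from the south west corner
  have key : ∀ (j : ℕ), (j : ℤ) ≤ ρ → ∀ m, m < (bx ρ).len F →
      (bx ρ).walk F m = ((-(j:ℤ), 0), .sw) →
      ∃ m', m = m' + 1 ∧ (bx ρ).walk F m' = ((-(j:ℤ), 0), .se) := by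
    intro j hj m hm h
    cases m with
    | zero =>
      rw [walk_zero, hs] at h
      simp at h
    | succ m =>
      refine ⟨m, rfl, ?_⟩
      have hb := back (ρ := ρ) F m
      rw [h] at hb
      have hne : ((-(j:ℤ), (0:ℤ) - 1, false) : Edg) ∉ (bx ρ).cfg F := by
        apply Walk_not_cfg (bx_ok hρ) hF
        simp only [src_mk, inR]
        omega
      rw [hb]
      simp only [step, hne, if_false]
  induction j with
  | zero =>
    intro hj m hm h
    obtain ⟨m', rfl, h'⟩ := key 0 hj m hm h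
    refine not_stop (ρ := ρ) (F := F) (m := m') (by omega) ?_
    rw [h']
    simp [Dm.stop]
  | succ j ih =>
    intro hj m hm h
    obtain ⟨m', rfl, h'⟩ := key (j + 1) hj m hm h
    cases m' with
    | zero =>
      rw [walk_zero, hs] at h'
      simp at h'
    | succ m' =>
      have hb := back (ρ := ρ) F m'
      rw [h'] at hb
      have hin : ((-((j + 1 : ℕ):ℤ), (0:ℤ), true) : Edg) ∈ (bx ρ).cfg F := by
        rw [mem_cfg]
        right; right; right
        refine ⟨rfl, rfl, ?_, ?_⟩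
        · simp only; omega
        · simp only; omega
      refine ih (by push_cast at hj; omega) m' (by omega) ?_
      rw [hb]
      simp only [step, hin, if_true]
      congr 2
      push_cast
      ring

/-- the configuration of the half-plane -/
noncomputable def wc (ρ : ℤ) (F : Finset Edg) : Conf := fun e => by
  classical exact decide (e ∈ F ∨ (e.2.2 = true ∧ e.2.1 = ρ ∧ -ρ ≤ e.1 ∧ e.1 < 0) ∨
    (e.2.2 = false ∧ e.1 = -ρ ∧ 0 ≤ e.2.1 ∧ e.2.1 < ρ))

theorem wc_iff (ρ : ℤ) (F : Finset Edg) (e : Edg) : wc ρ F e = true ↔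
    (e ∈ F ∨ (e.2.2 = true ∧ e.2.1 = ρ ∧ -ρ ≤ e.1 ∧ e.1 < 0) ∨
    (e.2.2 = false ∧ e.1 = -ρ ∧ 0 ≤ e.2.1 ∧ e.2.1 < ρ)) := by
  unfold wc
  exact decide_eq_true_iff

/-- the two configurations agree except to the left of the box -/
theorem cfg_opn' {ρ : ℤ} (hρ : 1 ≤ ρ) {F : Finset Edg} (hF : F ⊆ (bx ρ).edges) (e : Edg)
    (he : ¬ (e.2.2 = true ∧ e.2.1 = 0 ∧ e.1 < -ρ)) :
    e ∈ (bx ρ).cfg F ↔ e ∈ opn (wc ρ F) := by
  have hin : e ∈ F → 0 ≤ e.2.1 ∧ (e.2.2 = true → -ρ ≤ e.1) := by
    intro h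
    have h1 := hF h
    obtain ⟨x, y, b⟩ := e
    change _ ∈ RE (-ρ) ρ 0 ρ at h1
    cases b
    · rw [mem_RE_false] at h1
      simp only
      exact ⟨by omega, fun h => absurd h (by simp)⟩
    · rw [mem_RE_true] at h1
      simp only
      exact ⟨by omega, fun _ => by omega⟩
  have hop : e ∈ opn (wc ρ F) ↔ ((e.2.1 = 0 ∧ e.2.2 = true ∧ e.1 < 0) ∨
      (0 ≤ e.2.1 ∧ ¬ (e.2.1 = 0 ∧ e.2.2 = true) ∧ wc ρ F e = true)) := Iff.rfl
  rw [mem_cfg, hop, wc_iff]
  obtain ⟨x, y, b⟩ := e
  simp only at he hin ⊢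
  by_cases hw : ((x, y, b) : Edg) ∈ F
  · have h1 := hin hw
    cases b
    · simp only [hw, Bool.false_eq_true, false_and, and_false, and_true, false_or, or_false,
        not_false_eq_true, true_and, true_or]
      exact ⟨fun _ => h1.1, fun _ => trivial⟩
    · simp only [hw, Bool.true_eq_false, false_and, and_true, false_or, true_and, true_or]
      simp only [true_and] at he
      have h1a := h1.1
      have h1b := h1.2 rfl
      clear hop hin h1
      constructor
      · rintro (h | h | h)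
        · by_cases hy : y = 0
          · left; exact ⟨hy, by omega⟩
          · right; exact ⟨h1a, hy⟩
        · by_cases hy : y = 0
          · left; exact ⟨hy, by omega⟩
          · right; exact ⟨h1a, hy⟩
        · left; exact ⟨h.1, h.2.2⟩
      · rintro (h | h)
        · left; omega
        · left; omega
  · cases b
    · simp only [hw, Bool.false_eq_true, false_and, and_false, false_or, or_false,
        true_and, not_false_eq_true]
      omega
    · simp only [hw, Bool.true_eq_false, false_and, false_or,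
        or_false, true_and, and_true]
      simp only [true_and] at he
      omega

theorem step_eq {ρ : ℤ} (hρ : 1 ≤ ρ) {F : Finset Edg} (hF : F ⊆ (bx ρ).edges) {σ : St}
    (hσ : -ρ ≤ σ.1.1) (hne : σ ≠ ((-ρ, 0), .nw)) :
    step ((bx ρ).cfg F) σ = step (opn (wc ρ F)) σ := by
  classical
  obtain ⟨⟨x, y⟩, q⟩ := σ
  simp only at hσ
  cases q
  · simp only [step]
    exact if_congr (cfg_opn' hρ hF _ (by simp)) rfl rfl
  · simp only [step]
    refine if_congr (cfg_opn' hρ hF _ ?_) rfl rfl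
    rintro ⟨-, h2, h3⟩
    simp only at h2 h3
    apply hne
    have : x = -ρ := by omega
    rw [this, h2]
  · simp only [step]
    exact if_congr (cfg_opn' hρ hF _ (by simp)) rfl rfl
  · simp only [step]
    refine if_congr (cfg_opn' hρ hF _ ?_) rfl rfl
    rintro ⟨-, h2, h3⟩
    simp only at h3
    omega

/-- the path of the half-plane is the path of the box, run backwards -/
theorem couple' {ρ : ℤ} (hρ : 1 ≤ ρ) {F : Finset Edg} (hF : F ⊆ (bx ρ).edges) (k : ℕ) :
    k + 1 ≤ (bx ρ).len F → (bx ρ).walk F ((bx ρ).len F - 1 - k) = path (wc ρ F) k := by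
  have hL := walk_len (bx_ok hρ) hF
  set L := (bx ρ).len F with hLdef
  induction k with
  | zero =>
    intro hk
    obtain ⟨m, hm⟩ : ∃ m, L = m + 1 := ⟨L - 1, by omega⟩
    rw [hm] at hL ⊢
    have hb := back (ρ := ρ) F m
    rw [hL] at hb
    have hne : (((0:ℤ), (0:ℤ), true) : Edg) ∉ (bx ρ).cfg F := by
      rw [mem_cfg]
      simp
    have e1 : m + 1 - 1 - 0 = m := by omega
    rw [e1, hb]
    simp only [step, Dm.stop, hne, if_false]
    rfl
  | succ k ih =>
    intro hk
    have h2 := ih (by omega)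
    obtain ⟨m, hm⟩ : ∃ m, L - 1 - k = m + 1 := ⟨L - 1 - k - 1, by omega⟩
    have hm' : L - 1 - (k + 1) = m := by omega
    rw [hm'] 
    rw [hm] at h2
    have hb := back (ρ := ρ) F m
    rw [h2] at hb
    rw [path_succ, hb]
    have hin := walk_in (bx_ok hρ) hF (m + 1)
    rw [h2] at hin
    refine step_eq hρ hF hin.1.1 ?_
    intro hnw
    rw [hnw] at hb
    have hne : ((-ρ - 1, (0:ℤ), true) : Edg) ∉ (bx ρ).cfg F := by
      apply Walk_not_cfg (bx_ok hρ) hF
      simp only [src_mk, inR, bx]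
      omega
    simp only [step, hne, if_false] at hb
    obtain ⟨j, hj⟩ := Int.eq_ofNat_of_zero_le (show 0 ≤ ρ by omega)
    have := not_sw hρ hF j (by omega) m (by omega)
    apply this
    rw [hb, hj]

theorem cut_sub {ρ R : ℤ} (hR : R < ρ) (F : Finset Edg) : cut (wc ρ F) R ⊆ F := by
  intro e he
  rw [Couple_mem_cut, wc_iff] at he
  obtain ⟨h1, h2 | ⟨h2, h3, -⟩ | ⟨h2, h3, -⟩⟩ := he
  · exact h2
  · exfalso
    obtain ⟨x, y, b⟩ := e
    simp only at h2 h3
    subst h2
    rw [mem_RE_true] at h1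
    omega
  · exfalso
    obtain ⟨x, y, b⟩ := e
    simp only at h2 h3
    subst h2
    rw [mem_RE_false] at h1
    omega

theorem ret : Pool.Agent.W92.DPH.St_ret := by
  obtain ⟨κ, hκ, hW⟩ := H12S.win_half
  obtain ⟨C, c, hC, hc, harm⟩ := H12S.win_arm_of
    (fun h _ h1 h2 => fun c1 c2 S => H12S.win_blk h h1 h2 c1 c2 S) κ hκ
  have hok : Ok (fun _ : Edg => (1/2:ℝ)) := fun _ => ⟨by norm_num, by norm_num⟩
  refine ⟨c, max C 1, hc, lt_of_lt_of_le hC (le_max_left _ _), ?_⟩
  intro r R ρ hr hrR hRρ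
  rcases eq_or_lt_of_le hrR with h | hlt
  · subst h
    have hr0 : (r : ℝ) ≠ 0 := by
      have : (0:ℝ) < r := by exact_mod_cast (by omega : 0 < r)
      exact this.ne'
    rw [div_self hr0, Real.one_rpow, mul_one]
    exact (Pr_le_one hok _ _).trans (le_max_right _ _)
  · lift r to ℕ using (by omega) with r'
    lift R to ℕ using (by omega) with R'
    have hr1 : 1 ≤ r' := by exact_mod_cast hr
    have hrR' : r' < R' := by exact_mod_cast hlt
    have hρ : 1 ≤ ρ := by omega
    have h1 : P (bx ρ).edges (fun F => ∃ i j : ℕ, i ≤ j ∧ j ≤ (bx ρ).len F ∧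
        sd ((bx ρ).walk F i).1 (0, 0) ≤ (r' : ℤ) ∧ (R' : ℤ) ≤ sd ((bx ρ).walk F j).1 (0, 0)) ≤
        P (bx ρ).edges (fun F => H12S.Crs 0 0 r' R' (↑F : Set Edg)) := by
      apply Pr_mono hok
      rintro F hF ⟨i, j, hij, hj, hi, hjR⟩
      have hL := walk_len (bx_ok hρ) hF
      have hjL : j ≠ (bx ρ).len F := by
        intro h
        rw [h, hL] at hjR
        simp only [Dm.stop, Walk_sd_self] at hjR
        omega
      have hjk := couple' hρ hF ((bx ρ).len F - 1 - j) (by omega)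
      have hik := couple' hρ hF ((bx ρ).len F - 1 - i) (by omega)
      rw [show (bx ρ).len F - 1 - ((bx ρ).len F - 1 - j) = j by omega] at hjk
      rw [show (bx ρ).len F - 1 - ((bx ρ).len F - 1 - i) = i by omega] at hik
      by_contra hcon
      refine Ret_det (wc ρ F) (r := r') (R := R') (by positivity) (by exact_mod_cast hrR') ?_
        (k := (bx ρ).len F - 1 - j) (l := (bx ρ).len F - 1 - i) (by omega) ?_ ?_
      · intro v hv
        by_contra hv2
        push Not at hv2
        have h5 := Ret_arm (wc ρ F) hrR' hv hv2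
        exact hcon (BS_crs_mono (by exact_mod_cast cut_sub hRρ F) h5)
      · rw [← hjk]; exact hjR
      · rw [← hik]; exact hi
    refine h1.trans ?_
    have h2 := (harm (1/2) R' (hW R') r' R' hr1 hrR'.le le_rfl 0 0 (bx ρ).edges).1
    refine h2.trans ?_
    have h3 : (0:ℝ) ≤ ((r':ℝ) / R') ^ c := by positivity
    have h4 := mul_le_mul_of_nonneg_right (le_max_left C 1) h3
    simp only [Int.cast_natCast]
    exact h4

end Pool.Agent.W101.DPH
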